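import Pool.Agent.T9h27.P.Cst

/-!
# The constant for the family of all characters (helper27)
-/

set_option autoImplicit false

open Complex Filter Topology Set MeasureTheory

namespace Pool.Agent.T9h27.Q

open H385 H385.WinC
open Pool.Agent.T9h27.P (trig_num)

/-- the constant `√2 (√2 + cot √2) = 2.22326...` -/
theorem Rw_const_44 : 1 * Rw 2.8 0 + 8 * ∫ α in (0 : ℝ)..1, α * Rw 2.8 α < 2.2234 := by
  have h := Rw_const_closed 2.8 1 8 (by norm_num)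
  rw [h]
  obtain ⟨hcos, hsin⟩ := trig_num 0.7 0.76484219 0.64421769 (1 / 10 ^ 7) (by norm_num)
    (by norm_num)
    (by rw [abs_le]; constructor <;> norm_num) (by rw [abs_le]; constructor <;> norm_num)
  have e1 : Real.sin 1.4 = 2 * Real.sin 0.7 * Real.cos 0.7 := by
    rw [← Real.sin_two_mul]; norm_num
  have e2 : Real.cos 1.4 = 1 - 2 * Real.sin 0.7 ^ 2 := by
    have : Real.cos 1.4 = Real.cos (2 * 0.7) := by norm_num
    rw [this, Real.cos_two_mul, Real.cos_sq']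
    ring
  have hS : Real.sin 2.8 = 2 * Real.sin 1.4 * Real.cos 1.4 := by
    rw [← Real.sin_two_mul]; norm_num
  have hC : Real.cos 2.8 = 1 - 2 * Real.sin 1.4 ^ 2 := by
    have : Real.cos 2.8 = Real.cos (2 * 1.4) := by norm_num
    rw [this, Real.cos_two_mul, Real.cos_sq']
    ring
  rw [show (2.8 : ℝ) / 2 = 1.4 from by norm_num, hS, hC]
  obtain ⟨s, hs⟩ : ∃ s : ℝ, s = Real.sin 0.7 := ⟨_, rfl⟩
  obtain ⟨c, hc⟩ : ∃ c : ℝ, c = Real.cos 0.7 := ⟨_, rfl⟩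
  rw [← hs] at hsin e1 e2
  rw [← hc] at hcos e1
  obtain ⟨S, hSd⟩ : ∃ S : ℝ, S = Real.sin 1.4 := ⟨_, rfl⟩
  obtain ⟨C, hCd⟩ : ∃ C : ℝ, C = Real.cos 1.4 := ⟨_, rfl⟩
  rw [← hSd] at e1 ⊢
  rw [← hCd] at e2 ⊢
  rw [abs_le] at hcos hsin
  have hs1 : 0.6442175 ≤ s := by linarith [hsin.1]
  have hs2 : s ≤ 0.6442179 := by linarith [hsin.2]
  have hc1 : 0.7648420 ≤ c := by linarith [hcos.1]
  have hc2 : c ≤ 0.7648424 := by linarith [hcos.2]
  have hS1 : 2 * 0.6442175 * 0.7648420 ≤ S := by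
    rw [e1]
    exact mul_le_mul (by linarith) hc1 (by norm_num) (by linarith)
  have hS2 : S ≤ 2 * 0.6442179 * 0.7648424 := by
    rw [e1]
    exact mul_le_mul (by linarith) hc2 (by linarith) (by norm_num)
  have hC2 : C ≤ 1 - 2 * 0.6442175 ^ 2 := by
    rw [e2]
    have := pow_le_pow_left₀ (by norm_num : (0 : ℝ) ≤ 0.6442175) hs1 2
    linarith
  have hC0 : 0 ≤ C := by
    rw [e2]
    have := pow_le_pow_left₀ (by linarith : (0 : ℝ) ≤ s) hs2 2
    norm_num at this ⊢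
    linarith
  have hspos : 0 < S := lt_of_lt_of_le (by norm_num) hS1
  have e : (2.8 / (2 * S)) ^ 2 / 2 *
        (1 * (1 + 2 * S * C / 2.8) + 8 * ((1 - (1 - 2 * S ^ 2) - 1) / 2.8 ^ 2 +
          2 * S * C / 2.8 ^ 3)) = (2 * S ^ 2 - 0.02 + 99 / 70 * (C * S)) / S ^ 2 := by
    field_simp
    ring
  rw [e, div_lt_iff₀ (by positivity)]
  have h1 : C * S ≤ (1 - 2 * 0.6442175 ^ 2) * (2 * 0.6442179 * 0.7648424) :=
    mul_le_mul hC2 hS2 hspos.le (by norm_num)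
  have h2 := pow_le_pow_left₀ (by norm_num : (0 : ℝ) ≤ 2 * 0.6442175 * 0.7648420) hS1 2
  norm_num at h1 h2 ⊢
  linarith

/-- the constants for one L-function of degree one, in the form which is needed for its square -/
theorem consts44 : ∃ γ l D : ℝ, 0 < γ ∧ γ < Real.pi ∧ 1 / 2 ≤ l ∧ l < 1 ∧ 1 < D ∧
    Rw γ 0 / l + 2 * l * (4 * D) * (∫ α in (0 : ℝ)..1, α * Rw γ α) < 2.2234 := by
  obtain ⟨γ, hγ⟩ : ∃ γ : ℝ, γ = 2.8 := ⟨_, rfl⟩
  have h0 : 0 < γ := by rw [hγ]; norm_num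
  have hπ : γ < Real.pi := by rw [hγ]; linarith [Real.pi_gt_three]
  have hconst := Rw_const_44
  rw [← hγ] at hconst
  obtain ⟨R, hR⟩ : ∃ R : ℝ, R = Rw γ 0 := ⟨_, rfl⟩
  obtain ⟨I1, hI1⟩ : ∃ I1 : ℝ, I1 = ∫ α in (0 : ℝ)..1, α * Rw γ α := ⟨_, rfl⟩
  rw [← hR, ← hI1] at hconst
  have hcont : ContinuousAt (fun t : ℝ => R / t + 2 * t * (4 * (2 - t)) * I1) 1 := by
    have : (1 : ℝ) ≠ 0 := one_ne_zero
    fun_prop (disch := assumption)
  have hlt : (fun t : ℝ => R / t + 2 * t * (4 * (2 - t)) * I1) 1 < 2.2234 := by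
    change R / 1 + 2 * 1 * (4 * (2 - 1)) * I1 < 2.2234
    linarith
  have hev := hcont.eventually_lt_const hlt
  obtain ⟨r, hr, hball⟩ := Metric.eventually_nhds_iff.mp hev
  obtain ⟨t, ht⟩ : ∃ t : ℝ, t = 1 - min (r / 2) (1 / 2) := ⟨_, rfl⟩
  have hm1 : 0 < min (r / 2) (1 / 2) := lt_min (by positivity) (by norm_num)
  have hm2 : min (r / 2) (1 / 2) ≤ 1 / 2 := min_le_right _ _
  have hm3 : min (r / 2) (1 / 2) ≤ r / 2 := min_le_left _ _
  have htr := hball (y := t) (by rw [Real.dist_eq, abs_lt]; constructor <;> linarith)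
  change R / t + 2 * t * (4 * (2 - t)) * I1 < 2.2234 at htr
  refine ⟨γ, t, 2 - t, h0, hπ, by linarith, by linarith, by linarith, ?_⟩
  rw [← hR, ← hI1]
  exact htr

end Pool.Agent.T9h27.Q
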