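import Pool.Agent.T9h27.Y.Win
import Pool.Agent.T9h27.Q.Core

/-!
# All windows for squares (helper27)

The members of the family are the squares of the functions `G j i`.
-/

set_option autoImplicit false

open MeasureTheory Complex Filter Topology Set
open scoped ComplexConjugate

namespace Pool.Agent.T9h27.Q

open Pool.Agent.T9h27.Z hiding FD small_win win pos_prop Dat core LSh geo_bd hc_of all_ms up_bound
open Pool.Agent.T9h27.Y hiding small_win win pos_prop core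
open H385 (Rw zz)
open H370 (mult zset NN Ns Nd)
open Pool.Agent.T9h27.D (farZ Nfar)
open Pool.Agent.T9h27.C (zd nd)

section

variable {J : Type} {ι : J → Type} {S : (j : J) → Finset (ι j)} {F G : (j : J) → ι j → ℂ → ℂ}
  {a : (j : J) → ι j → ℕ → ℂ} {Q : (j : J) → ι j → ℝ} {X : J → ℝ} {q Yc : J → ℕ}
  {c : ℕ → ℂ} {d A l₂ D D' g cf θ : ℝ}

open Classical in
/-- windows of bounded length -/
theorem small_sq (hc : W388.SelE c) (h : FD S F a Q X q Yc c d A l₂ D D' g cf θ)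
    (hsq : ∀ j, ∀ i ∈ S j, ∀ z, mult (F j i) z = 2 * mult (G j i) z) {l : ℝ}
    (hl : 1 / 2 ≤ l) (hl2 : l < l₂) (hl21 : l₂ ≤ 1) (hgl : g ≤ l) (hD : 0 < D) {γ : ℝ} (h0 : 0 < γ) (hπ : γ < Real.pi) {ε : ℝ}
    (hε : 0 < ε) : ∃ H1 η X0 : ℝ, 1 ≤ H1 ∧ 0 < η ∧ 1 ≤ X0 ∧ ∀ j, X0 ≤ X j →
    1 ≤ Real.log (X j) ∧
    ∃ Z : ι j → Finset ℂ, (∀ i ∈ S j, ∀ z, (z ∈ Z i → z ∈ zset (F j i) (-(X j) ^ θ) ((X j) ^ θ)) ∧
      (z ∈ zset (F j i) (-(3 * (X j) ^ η)) (3 * (X j) ^ η) → z ∈ Z i)) ∧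
    ∀ T1 T2 : ℝ, |T1| ≤ 3 * (X j) ^ η → |T2| ≤ 3 * (X j) ^ η →
      H1 ≤ (T2 - T1) * Real.log (X j) → (T2 - T1) * Real.log (X j) ≤ 2 * H1 →
      ∀ w : ι j → ℂ → ℝ, (∀ i ∈ S j, ∀ z ∈ Z i,
        w i z ≤ 4 * (mult (G j i) z : ℝ) - H385.PerChi.kk (G j i) z ∧
          w i z ≤ 3 * (mult (G j i) z : ℝ)) →
      4 * ∑ i ∈ S j, ∑ z ∈ (Z i).filter (fun z => T1 < z.im ∧ z.im ≤ T2), w i z ≤
          (Rw γ 0 / l + 2 * l * D * (∫ α in (0 : ℝ)..1, α * Rw γ α) + ε) *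
            ∑ i ∈ S j, ∑ z ∈ (Z i).filter (fun z => T1 < z.im ∧ z.im ≤ T2),
              (mult (F j i) z : ℝ) ∧
      ∑ i ∈ S j, |∑ z ∈ (Z i).filter (fun z => T1 < z.im ∧ z.im ≤ T2), (mult (F j i) z : ℝ) -
          (T2 - T1) * Real.log (X j) / (2 * Real.pi)| ≤
        2 * ε * ((T2 - T1) * Real.log (X j) / (2 * Real.pi)) * (S j).card := by
  obtain ⟨hd, hA, hX, hG, hav, hls, hnc, hncr, hg0, hgc, hlg, hDp, hθ, hθ1, hfar, hnear⟩ := h
  obtain ⟨k0, Q', X1, hQ', hfar⟩ := hfar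
  obtain ⟨b, C, X2, hb, hC, hnear⟩ := hnear
  obtain ⟨X3, hls⟩ := hls
  have hinv : 0 < (1 - Real.exp (-(cf - g)))⁻¹ := by
    have h0 : Real.exp (-(cf - g)) < 1 := by rw [Real.exp_lt_one_iff]; linarith
    exact inv_pos.mpr (by linarith)
  obtain ⟨B, hB⟩ : ∃ B : ℝ, B = Real.exp (g * k0) * (C * Real.exp (C * (k0 + 1)) / b) +
        Q' * (Real.exp g * (1 - Real.exp (-(cf - g)))⁻¹) := ⟨_, rfl⟩
  have hB0 : 0 ≤ B := by rw [hB]; positivity
  obtain ⟨l₁, hl₁⟩ : ∃ l₁ : ℝ, l₁ = (l + l₂) / 2 := ⟨_, rfl⟩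
  obtain ⟨E0, R0, hE0, hR0, hefx⟩ := efx d A hd hA (l₁ := l₁) (l₂ := l₂) (by linarith) hl21
  obtain ⟨ηc, ρ, H1, hηc, hρ, hH1, hcore⟩ := core_sq c hc h0 hπ (l := l) (l₁ := l₁) (D := D)
    (D' := D') (A := B) (g := g) (E0 := E0) (ε := ε) (by linarith) (by linarith) (by linarith) hD
    hDp hB0 hg0 (by linarith) hgl hE0.le
    (fun ρ => 2 / b ^ 2 * (C * Real.exp (C * (ρ + 1)))) hε
  obtain ⟨R1, ν, hR1, hν, hcore⟩ := hcore (2 * H1) (by linarith)
  obtain ⟨X4, hav⟩ := hav ηc hηc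
  obtain ⟨X5, hnc⟩ := hnc ν hν
  obtain ⟨X7, hncr⟩ := hncr ν hν
  obtain ⟨η, hη⟩ : ∃ η : ℝ, η = min (θ / 2) (ηc / (2 * d)) := ⟨_, rfl⟩
  have hη0 : 0 < η := by rw [hη]; exact lt_min (by positivity) (by positivity)
  have hηθ : η ≤ θ / 2 := by rw [hη]; exact min_le_left _ _
  have hηc2 : 2 * d * η ≤ ηc := by
    have h1 : η ≤ ηc / (2 * d) := by rw [hη]; exact min_le_right _ _
    rw [le_div_iff₀ (by positivity)] at h1
    linarith
  -- how large the conductor must be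
  obtain ⟨X6, hX61, hX6⟩ := grow hθ (R0 + R1 + 4 * (k0 + 1) + 4 * (ρ + 1) + 2 * H1 + 4 +
    2 * d * Real.log 4 / ηc + Real.log 4 / η)
  refine ⟨H1, η, max X6 (max (max X1 X2) (max X3 (max X4 (max X5 X7)))), hH1, hη0,
    le_max_of_le_left hX61, fun j hj => ?_⟩
  have k6 : X6 ≤ X j := (le_max_left _ _).trans hj
  have kr : max (max X1 X2) (max X3 (max X4 (max X5 X7))) ≤ X j := (le_max_right _ _).trans hj
  have k1 : X1 ≤ X j := ((le_max_left _ _).trans (le_max_left _ _)).trans kr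
  have k2 : X2 ≤ X j := ((le_max_right _ _).trans (le_max_left _ _)).trans kr
  have k3 : X3 ≤ X j := ((le_max_left _ _).trans (le_max_right _ _)).trans kr
  have k4 : X4 ≤ X j :=
    (((le_max_left _ _).trans (le_max_right _ _)).trans (le_max_right _ _)).trans kr
  have k5 : X5 ≤ X j := (((((le_max_left _ _).trans (le_max_right _ _)).trans
    (le_max_right _ _)).trans (le_max_right _ _)).trans kr)
  have k7 : X7 ≤ X j := (((((le_max_right _ _).trans (le_max_right _ _)).trans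
    (le_max_right _ _)).trans (le_max_right _ _)).trans kr)
  obtain ⟨hlog, hgrow⟩ := hX6 _ k6
  have hfar' := hfar j k1
  have hnear' := hnear j k2
  have hls' := hls j k3
  have hav' := hav j k4
  have hnc' := hnc j k5
  have hncr' := hncr j k7
  obtain ⟨x, hx⟩ : ∃ x : ℝ, x = X j := ⟨_, rfl⟩
  obtain ⟨R, hR⟩ : ∃ R : ℝ, R = Real.log (X j) := ⟨_, rfl⟩
  have hX1 := hX j
  have hG' := hG j
  rw [← hR] at hlog hgrow hfar' hnear' hav' hnc' hncr' hG' ⊢
  have hRx : R = Real.log x := by rw [hR, hx]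
  rw [← hx] at hgrow hls' hX1 ⊢
  have hx0 : 0 < x := by linarith
  have e1 : 0 ≤ 2 * d * Real.log 4 / ηc := by
    have : 0 ≤ Real.log 4 := Real.log_nonneg (by norm_num)
    positivity
  have e2 : 0 ≤ Real.log 4 / η := by
    have : 0 ≤ Real.log 4 := Real.log_nonneg (by norm_num)
    positivity
  have hk0 : (0 : ℝ) ≤ k0 := Nat.cast_nonneg _
  have r0 : R0 ≤ R := by linarith
  have r1 : R1 ≤ R := by linarith
  have r2 : 4 * ((k0 : ℝ) + 1) ≤ R := by linarith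
  have r3 : 4 * (ρ + 1) ≤ R := by linarith
  have r4 : 2 * H1 ≤ R := by linarith
  have r5 : 4 ≤ R := by linarith
  have r6 : 2 * d * Real.log 4 / ηc ≤ R := by linarith
  have r7 : Real.log 4 / η ≤ R := by linarith
  have hRp : 0 < R := by linarith
  rw [div_le_iff₀ (by positivity)] at r6 r7
  have hxη : x ^ η ≤ x ^ (θ / 2) := Real.rpow_le_rpow_of_exponent_le hX1 hηθ
  have hxη1 : 1 ≤ x ^ η := Real.one_le_rpow hX1 hη0.le
  have hxθ : x ^ θ ≤ x := by
    calc x ^ θ ≤ x ^ (1 : ℝ) := Real.rpow_le_rpow_of_exponent_le hX1 hθ1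
      _ = x := Real.rpow_one x
  have hT : 3 * x ^ η + R + 3 ≤ x ^ θ := by linarith
  -- the length of the prime sum
  obtain ⟨M, hM⟩ : ∃ M : ℕ, M = ⌊x ^ l₂⌋₊ := ⟨_, rfl⟩
  have hxl : 0 < x ^ l₂ := Real.rpow_pos_of_pos hx0 _
  have hM1 : (M : ℝ) ≤ x ^ l₂ := by rw [hM]; exact Nat.floor_le hxl.le
  have hM2 : l₂ * R ≤ Real.log (M + 1) := by
    have h1 : x ^ l₂ < M + 1 := by rw [hM]; exact Nat.lt_floor_add_one _
    have h2 := Real.log_le_log hxl h1.le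
    rwa [Real.log_rpow hx0, ← hRx] at h2
  have hMl : ∀ n ∈ Finset.Icc 1 M, Real.log n ≤ R := by
    intro n hn
    obtain ⟨n1, n2⟩ := Finset.mem_Icc.mp hn
    have h1 : (n : ℝ) ≤ x := by
      have h2 : (n : ℝ) ≤ M := by exact_mod_cast n2
      have h3 : x ^ l₂ ≤ x := by
        calc x ^ l₂ ≤ x ^ (1 : ℝ) := Real.rpow_le_rpow_of_exponent_le hX1 hl21
          _ = x := Real.rpow_one x
      linarith
    rw [hRx]
    exact Real.log_le_log (by exact_mod_cast n1) h1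
  -- the zeros
  obtain ⟨T, hTd⟩ : ∃ T : ℝ, T = 3 * x ^ η := ⟨_, rfl⟩
  rw [← hTd] at hT ⊢
  have hT0 : 0 ≤ T := by rw [hTd]; positivity
  have hQx : ∀ i ∈ S j, Q j i ≤ x := by
    intro i hi
    obtain ⟨g1, g2, -⟩ := hG' i hi
    have h1 : Real.log (Q j i) ≤ R := by
      have h3 := Real.log_nonneg g1
      have h4 := le_mul_of_one_le_left h3 hd
      linarith only [h4, g2]
    rw [hRx] at h1
    exact (Real.log_le_log_iff (by linarith) hx0).mp h1
  have hZex : ∀ i : ι j, ∃ Z : Finset ℂ, i ∈ S j →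
      (∀ z, (z ∈ Z → z ∈ zset (F j i) (-x ^ θ) (x ^ θ) ∧ |z.im| ≤ x ^ θ - 1) ∧
        (z ∈ zset (F j i) (-T) T → z ∈ Z)) ∧
      (∀ z ∈ Z, dl z ≤ 1 / 2 ∧ 1 - conj z ∈ Z ∧ mult (F j i) (1 - conj z) = mult (F j i) z) ∧
      ∀ v t τ₀ : ℝ, |v| ≤ l₁ * R → |t| ≤ T → |t - τ₀| ≤ 1 →
          ‖AA Z (mult (F j i)) v t - DDa (d * Real.log (Q j i * (|τ₀| + 1))) (Finset.Icc 1 M)
            (a j i) v t‖ ≤ E0 * (Real.exp (-|v| / 4) + 1 / R) := by
    intro i
    by_cases hi : i ∈ S j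
    swap
    · exact ⟨∅, fun h => absurd h hi⟩
    obtain ⟨g1, g2, g3⟩ := hG' i hi
    have hlogQ : Real.log (Q j i * (T + R)) ≤ 3 * R := by
      have h1 : Q j i * (T + R) ≤ x * x := by
        refine mul_le_mul (hQx i hi) ?_ (by positivity) hx0.le
        linarith
      have h2 := Real.log_le_log (mul_pos (by linarith) (by linarith)) h1
      rw [Real.log_mul hx0.ne' hx0.ne', ← hRx] at h2
      linarith
    obtain ⟨V1, V2, Z, v1, v2, v3, v4, z1, z2, z3⟩ := hefx (Q j i) (F j i) (a j i) g1 g3 T R M r0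
      hT0 hlogQ hM2
    refine ⟨Z, fun _ => ⟨fun z => ⟨fun hz => ?_, fun hz => ?_⟩, z2, z3⟩⟩
    · obtain ⟨y1, y2, y3, y4, y5⟩ := (z1 z).mp hz
      refine ⟨⟨y1, y2, by linarith, by linarith, y5⟩, ?_⟩
      rw [abs_le]
      constructor <;> linarith
    · obtain ⟨y1, y2, y3, y4, y5⟩ := hz
      exact (z1 z).mpr ⟨y1, y2, by linarith, by linarith, y5⟩
  choose Z hZ using hZex
  refine ⟨by linarith, Z, fun i hi z => ⟨fun hz => (((hZ i hi).1 z).1 hz).1,
    ((hZ i hi).1 z).2⟩, ?_⟩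
  intro T1 T2 hT1 hT2 hH1' hH2' w hw
  have hwin : T1 ≤ T2 := by
    by_contra hcon
    push Not at hcon
    have h1 := mul_neg_of_neg_of_pos (by linarith only [hcon] : T2 - T1 < 0) hRp
    linarith only [h1, hH1', hH1]
  have hwin1 : T2 - T1 ≤ 1 := by
    by_contra hcon
    push Not at hcon
    have h1 := (lt_mul_iff_one_lt_left hRp).mpr hcon
    linarith only [h1, hH2', r4]
  have hV1 := abs_le.mp hT1
  have hV2 := abs_le.mp hT2
  have hZ0 : ∀ i ∈ S j, ∀ z ∈ Z i, 0 < z.re ∧ z.re < 1 ∧ |z.im| ≤ x ^ θ - 1 ∧ F j i z = 0 := by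
    intro i hi z hz
    obtain ⟨⟨y1, y2, -, -, y5⟩, y6⟩ := ((hZ i hi).1 z).1 hz
    exact ⟨y1, y2, y6, y5⟩
  have hHC := hc_of hg0.le hgc (S := S j) (F := F j) (Z := Z) (R := R) (V := x ^ θ) (k0 := k0)
    (by linarith) hb hC hQ' (by rw [div_le_iff₀ hRp]; linarith)
    (fun t ht => hfar' t (by rw [← hx]; exact ht))
    (fun t ht => hnear' t (by rw [← hx]; exact ht)) hZ0
  have hHM := hm_of (S := S j) (F := F j) (Z := Z) (R := R) (V := x ^ θ) (ρ := ρ)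
    (by linarith) hb hC hρ.le (by rw [div_le_iff₀ hRp]; linarith)
    (fun t ht => hnear' t (by rw [← hx]; exact ht)) hZ0
  rw [← hB] at hHC
  have hlT : Real.log (|T1| + 1) ≤ η * R + Real.log 4 := by
    have h1 : |T1| + 1 ≤ 4 * x ^ η := by linarith
    have h2 := Real.log_le_log (by positivity : 0 < |T1| + 1) h1
    rw [Real.log_mul (by norm_num) (by positivity), Real.log_rpow hx0, ← hRx] at h2
    linarith
  have hlT0 : 0 ≤ Real.log (|T1| + 1) := Real.log_nonneg (by linarith [abs_nonneg T1])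
  have hlQ : ∀ i ∈ S j, d * Real.log (Q j i * (|T1| + 1)) =
      d * Real.log (Q j i) + d * Real.log (|T1| + 1) := by
    intro i hi
    obtain ⟨g1, g2, g3⟩ := hG' i hi
    rw [Real.log_mul (by linarith) (by positivity)]
    ring
  have hdat : Dat (S j) (F j) Z (fun i => d * Real.log (Q j i * (|T1| + 1))) (a j) c M (q j) (Yc j)
      R l₁ g D D' B E0 ηc ν T1 T2 := by
    refine ⟨fun i hi z hz => (hZ i hi).2.1 z hz, fun i hi => ?_, ?_, hls' M hM1, hncr' M, hMl,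
      fun i hi => hnc' i hi M, hHC, fun i hi v τ hv hτ => ?_⟩
    · obtain ⟨g1, g2, g3⟩ := hG' i hi
      have h3 := Real.log_nonneg g1
      rw [hlQ i hi]
      refine ⟨by positivity, ?_⟩
      have h4 : d * Real.log (|T1| + 1) ≤ ηc * R := by
        have h5 : d * Real.log (|T1| + 1) ≤ d * (η * R + Real.log 4) :=
          mul_le_mul_of_nonneg_left hlT (by linarith)
        have h6 : d * (η * R + Real.log 4) = (2 * d * η) * R / 2 + (2 * d * Real.log 4) / 2 := by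
          ring
        have h7 := mul_le_mul_of_nonneg_right hηc2 hRp.le
        linarith
      linarith
    · refine hav'.trans (Finset.sum_le_sum fun i hi => ?_)
      rw [hlQ i hi]
      have : 0 ≤ d * Real.log (|T1| + 1) := by positivity
      linarith
    · refine (hZ i hi).2.2 v τ T1 hv ?_ ?_
      · rw [abs_le]
        exact ⟨by linarith [hτ.1], by linarith [hτ.2]⟩
      · rw [abs_of_nonneg (by linarith [hτ.1])]
        linarith [hτ.2]
  exact hcore (S j) (F j) (G j) Z _ (a j) M (q j) (Yc j) R T1 T2 w r1 hH1' hH2' hdat hHM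
    (hsq j) hw

open Classical in
/-- **the theorem for families** -/
theorem win_sq (hc : W388.SelE c) (h : FD S F a Q X q Yc c d A l₂ D D' g cf θ)
    (hz : ∀ j, ∀ i ∈ S j, ∀ z, F j i z = 0 ↔ G j i z = 0)
    (hsq : ∀ j, ∀ i ∈ S j, ∀ z, mult (F j i) z = 2 * mult (G j i) z) {l : ℝ}
    (hl : 1 / 2 ≤ l) (hl2 : l < l₂) (hl21 : l₂ ≤ 1) (hgl : g ≤ l) (hD : 0 < D) {γ : ℝ} (h0 : 0 < γ) (hπ : γ < Real.pi) {κ : ℝ}
    (hκ : Rw γ 0 / l + 2 * l * D * (∫ α in (0 : ℝ)..1, α * Rw γ α) < 2 * κ) {δ : ℝ} (hδ : 0 < δ) :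
    ∃ H1 η X0 : ℝ, 1 ≤ H1 ∧ 0 < η ∧ 1 ≤ X0 ∧ ∀ j, X0 ≤ X j → ∀ T1 T2 : ℝ, |T1| ≤ (X j) ^ η →
      H1 ≤ (T2 - T1) * Real.log (X j) → T2 - T1 ≤ (X j) ^ η →
      (∀ i ∈ S j, (zset (G j i) T1 T2).Finite) ∧
      ∑ i ∈ S j, (2 * (NN (G j i) T1 T2 : ℝ) - (Ns (G j i) T1 T2 : ℝ)) ≤
        κ * ∑ i ∈ S j, (NN (G j i) T1 T2 : ℝ) ∧
      ∑ i ∈ S j, (3 * (NN (G j i) T1 T2 : ℝ) - 2 * (Nd (G j i) T1 T2 : ℝ)) ≤
        κ * ∑ i ∈ S j, (NN (G j i) T1 T2 : ℝ) ∧
      ∑ i ∈ S j, |2 * (NN (G j i) T1 T2 : ℝ) - (T2 - T1) * Real.log (X j) / (2 * Real.pi)| ≤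
        δ * ((T2 - T1) * Real.log (X j) / (2 * Real.pi)) * (S j).card := by
  obtain ⟨ε, hε⟩ : ∃ ε : ℝ, ε =
    min (δ / 2) (2 * κ - (Rw γ 0 / l + 2 * l * D * (∫ α in (0 : ℝ)..1, α * Rw γ α))) := ⟨_, rfl⟩
  have hε0 : 0 < ε := by
    rw [hε]
    exact lt_min (by linarith) (by linarith)
  have hεδ : 2 * ε ≤ δ := by
    have h1 : ε ≤ δ / 2 := by rw [hε]; exact min_le_left _ _
    linarith
  have hεκ : ε ≤ 2 * κ - (Rw γ 0 / l + 2 * l * D * (∫ α in (0 : ℝ)..1, α * Rw γ α)) := by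
    rw [hε]; exact min_le_right _ _
  obtain ⟨H1, η, X0, hH1, hη, hX0, hsm⟩ := small_sq hc h hsq hl hl2 hl21 hgl hD h0 hπ hε0
  refine ⟨H1, η, X0, hH1, hη, hX0, fun j hj => ?_⟩
  obtain ⟨hlog, Z, hZ, hsm⟩ := hsm j hj
  intro T1 T2 hT1 hH hT2
  obtain ⟨Y, hY⟩ : ∃ Y : ℝ, Y = (X j) ^ η := ⟨_, rfl⟩
  rw [← hY] at hZ hsm hT1 hT2
  have hY0 : 0 ≤ Y := (abs_nonneg _).trans hT1
  have hR : 0 < Real.log (X j) := by linarith
  have hTT : T1 ≤ T2 := by
    by_contra hcon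
    push Not at hcon
    have h1 := mul_neg_of_neg_of_pos (by linarith only [hcon] : T2 - T1 < 0) hR
    linarith only [h1, hH, hH1]
  have hA1 := abs_le.mp hT1
  have hT1' : |T1| ≤ 3 * Y := by linarith
  have hT2' : |T2| ≤ 3 * Y := by
    rw [abs_le]
    constructor <;> linarith
  have hiff : ∀ i ∈ S j, ∀ z, (z ∈ Z i ∧ T1 < z.im ∧ z.im ≤ T2) ↔ z ∈ zset (G j i) T1 T2 := by
    intro i hi z
    constructor
    · rintro ⟨z1, z2, z3⟩
      obtain ⟨y1, y2, -, -, y5⟩ := (hZ i hi z).1 z1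
      exact ⟨y1, y2, z2, z3, (hz j i hi z).mp y5⟩
    · rintro ⟨y1, y2, y3, y4, y5⟩
      refine ⟨(hZ i hi z).2 ⟨y1, y2, by linarith, by linarith, (hz j i hi z).mpr y5⟩, y3, y4⟩
  have hm : ∀ i ∈ S j, ∀ z ∈ Z i, 1 ≤ mult (G j i) z := by
    intro i hi z hz'
    obtain ⟨-, -, -, -, y5⟩ := (hZ i hi z).1 hz'
    obtain ⟨g1, g2, g3⟩ := h.hG j i hi
    have h1 := Pool.Agent.T9h27.D.ord_pos g3.diff (g3.nzr 2 (by norm_num)) y5
    have h2 := hsq j i hi z
    have h3 : 1 ≤ mult (F j i) z := h1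
    omega
  have main : ∀ w : ι j → ℂ → ℝ, (∀ i ∈ S j, ∀ z ∈ Z i,
        w i z ≤ 4 * (mult (G j i) z : ℝ) - H385.PerChi.kk (G j i) z ∧
          w i z ≤ 3 * (mult (G j i) z : ℝ)) →
      ∑ i ∈ S j, ∑ z ∈ (Z i).filter (fun z => T1 < z.im ∧ z.im ≤ T2), w i z ≤
        κ * ∑ i ∈ S j, (NN (G j i) T1 T2 : ℝ) := by
    intro w hw
    have h1 := all_win (G := fun a b => ∑ i ∈ S j, ∑ z ∈ (Z i).filter
        (fun z => a < z.im ∧ z.im ≤ b), (w i z - κ * (mult (G j i) z : ℝ)))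
      (R := Real.log (X j)) (H1 := H1) (T := 3 * Y) (V := 0) hR (by linarith) (by
      intro a b c hab hbc
      rw [← Finset.sum_add_distrib]
      exact le_of_eq (Finset.sum_congr rfl fun i _ => split_win (Z i) _ hab hbc)) (by
      intro a b ha hb h3 h4
      have h5 := (hsm a b ha hb h3 h4 w hw).1
      have h6 : 0 ≤ ∑ i ∈ S j, ∑ z ∈ (Z i).filter (fun z => a < z.im ∧ z.im ≤ b),
          (mult (G j i) z : ℝ) := Finset.sum_nonneg fun i _ => Finset.sum_nonneg fun z _ =>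
            Nat.cast_nonneg _
      have h7 := mul_le_mul_of_nonneg_right hεκ h6
      have h8 : ∑ i ∈ S j, ∑ z ∈ (Z i).filter (fun z => a < z.im ∧ z.im ≤ b),
          (mult (F j i) z : ℝ) = 2 * ∑ i ∈ S j, ∑ z ∈ (Z i).filter
            (fun z => a < z.im ∧ z.im ≤ b), (mult (G j i) z : ℝ) := by
        rw [Finset.mul_sum]
        refine Finset.sum_congr rfl fun i hi => ?_
        rw [Finset.mul_sum]
        refine Finset.sum_congr rfl fun z _ => ?_
        rw [hsq j i hi z]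
        push_cast
        ring
      rw [h8] at h5
      simp only [Finset.sum_sub_distrib, ← Finset.mul_sum]
      linarith) hT1' hT2' hH
    simp only [Finset.sum_sub_distrib, ← Finset.mul_sum] at h1
    have h2 : ∑ i ∈ S j, (NN (G j i) T1 T2 : ℝ) = ∑ i ∈ S j,
        ∑ z ∈ (Z i).filter (fun z => T1 < z.im ∧ z.im ≤ T2), (mult (G j i) z : ℝ) :=
      Finset.sum_congr rfl fun i hi => NN_filter (hiff i hi)
    rw [h2]
    linarith
  refine ⟨fun i hi => ?_, ?_, ?_, ?_⟩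
  · rw [zset_filter (hiff i hi)]
    exact Finset.finite_toSet _
  · refine le_trans (le_of_eq ?_) (main (fun i z => 2 * (mult (G j i) z : ℝ) -
        if (z.re = 1 / 2 ∧ mult (G j i) z = 1) then 1 else 0)
      (fun i hi z hz => w1_ok (hm i hi z hz)))
    exact Finset.sum_congr rfl fun i hi => Ns_filter (hiff i hi)
  · refine le_trans (le_of_eq ?_) (main (fun i z => 3 * (mult (G j i) z : ℝ) - 2)
      (fun i hi z hz => w2_ok (hm i hi z hz)))
    exact Finset.sum_congr rfl fun i hi => Nd_filter (hiff i hi)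
  · have h1 := all_win (G := fun a b => ∑ i ∈ S j, |∑ z ∈ (Z i).filter
        (fun z => a < z.im ∧ z.im ≤ b), (mult (F j i) z : ℝ) -
          (b - a) * Real.log (X j) / (2 * Real.pi)|)
      (R := Real.log (X j)) (H1 := H1) (T := 3 * Y)
      (V := δ * (Real.log (X j) / (2 * Real.pi)) * (S j).card) hR (by linarith) (by
      intro a b c hab hbc
      rw [← Finset.sum_add_distrib]
      refine Finset.sum_le_sum fun i _ => ?_
      rw [split_win (Z i) _ hab hbc]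
      refine le_trans (le_of_eq ?_) (abs_add_le _ _)
      congr 1
      ring) (by
      intro a b ha hb h3 h4
      have h5 := (hsm a b ha hb h3 h4 (fun i z => 3 * (mult (G j i) z : ℝ) - 2)
        (fun i hi z hz => w2_ok (hm i hi z hz))).2
      have h6 : 0 ≤ ((b - a) * Real.log (X j) / (2 * Real.pi)) * (S j).card := by
        have : 0 ≤ (b - a) * Real.log (X j) := by linarith
        positivity
      have h7 := mul_le_mul_of_nonneg_right hεδ h6
      have e1 : δ * (Real.log (X j) / (2 * Real.pi)) * (S j).card * (b - a) =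
        δ * (((b - a) * Real.log (X j) / (2 * Real.pi)) * (S j).card) := by ring
      rw [e1]
      linarith) hT1' hT2' hH
    have e2 : δ * (Real.log (X j) / (2 * Real.pi)) * (S j).card * (T2 - T1) =
      δ * ((T2 - T1) * Real.log (X j) / (2 * Real.pi)) * (S j).card := by ring
    rw [← e2]
    refine le_trans (le_of_eq (Finset.sum_congr rfl fun i hi => ?_)) h1
    rw [NN_filter (hiff i hi), Finset.mul_sum]
    congr 2
    refine Finset.sum_congr rfl fun z _ => ?_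
    rw [hsq j i hi z]
    push_cast
    ring

open Classical in
/-- **at every height a large proportion of the family has a simple critical zero close to
that height** -/
theorem pos_sq (hc : W388.SelE c) (h : FD S F a Q X q Yc c d A l₂ D D' g cf θ)
    (hz : ∀ j, ∀ i ∈ S j, ∀ z, F j i z = 0 ↔ G j i z = 0)
    (hsq : ∀ j, ∀ i ∈ S j, ∀ z, mult (F j i) z = 2 * mult (G j i) z) {l : ℝ}
    (hl : 1 / 2 ≤ l) (hl2 : l < l₂) (hl21 : l₂ ≤ 1) (hgl : g ≤ l) (hD : 0 < D) {γ : ℝ} (h0 : 0 < γ) (hπ : γ < Real.pi) {p : ℝ}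
    (hp0 : 0 ≤ p)
    (hp : Rw γ 0 / l + 2 * l * D * (∫ α in (0 : ℝ)..1, α * Rw γ α) < 2 * (2 - p)) :
    ∃ B η X0 : ℝ, 0 < B ∧ 0 < η ∧ 1 ≤ X0 ∧ ∀ j, X0 ≤ X j → ∀ t : ℝ,
      |t| ≤ (X j) ^ η → p * (S j).card ≤
        ((S j).filter fun i => 0 < Ns (G j i) t (t + B / Real.log (X j))).card := by
  have hp2 : (Rw γ 0 / l + 2 * l * D * (∫ α in (0 : ℝ)..1, α * Rw γ α)) / 2 < 2 - p := by
    linarith
  obtain ⟨κ, hκ1, hκ2⟩ := exists_between hp2
  have hκ1' : Rw γ 0 / l + 2 * l * D * (∫ α in (0 : ℝ)..1, α * Rw γ α) < 2 * κ := by linarith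
  have hκ3 : 0 < 3 - κ := by linarith
  obtain ⟨δ, hδ⟩ : ∃ δ : ℝ, δ = (2 - κ - p) / (3 - κ) := ⟨_, rfl⟩
  have hδ0 : 0 < δ := by
    rw [hδ]
    exact div_pos (by linarith) hκ3
  have hδ1 : δ * (3 - κ) = 2 - κ - p := by
    rw [hδ]
    field_simp
  obtain ⟨B, η, X1, hB, hη, hX1, hwin⟩ := win_sq hc h hz hsq hl hl2 hl21 hgl hD h0 hπ hκ1' hδ0
  have hpi := Real.pi_pos
  refine ⟨B, η, max X1 (Real.exp B), by linarith, hη, le_max_of_le_left hX1,
    fun j hj t ht => ?_⟩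
  have k1 : X1 ≤ X j := (le_max_left _ _).trans hj
  have k3 : Real.exp B ≤ X j := (le_max_right _ _).trans hj
  have hX := h.hX j
  have hR : B ≤ Real.log (X j) := by
    rw [Real.le_log_iff_exp_le (by linarith)]
    exact k3
  obtain ⟨R, hRd⟩ : ∃ R : ℝ, R = Real.log (X j) := ⟨_, rfl⟩
  have hwin' := hwin j k1 t (t + B / Real.log (X j))
  rw [← hRd] at hwin' hR ⊢
  have hR0 : 0 < R := by linarith
  have hr1 : B / R ≤ 1 := by rw [div_le_one hR0]; exact hR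
  have e1 : t + B / R - t = B / R := by ring
  have e2 : B / R * R = B := by field_simp
  have hXη : 1 ≤ (X j) ^ η := Real.one_le_rpow hX hη.le
  obtain ⟨w1, w2, -, w4⟩ := hwin' ht (by rw [e1, e2]) (by rw [e1]; linarith)
  rw [e1, e2] at w4
  rw [Finset.sum_sub_distrib, ← Finset.mul_sum] at w2
  have hcard : (0 : ℝ) ≤ (S j).card := Nat.cast_nonneg _
  obtain ⟨m, hm⟩ : ∃ m : ℝ, m = B / (2 * Real.pi) := ⟨_, rfl⟩
  rw [← hm] at w4
  have hm0 : 0 < m := by rw [hm]; positivity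
  -- the number of all zeros
  have hNN : (1 - δ) * m * (S j).card ≤ 2 * ∑ i ∈ S j, (NN (G j i) t (t + B / R) : ℝ) := by
    have h1 : ∑ i ∈ S j, (m - |2 * (NN (G j i) t (t + B / R) : ℝ) - m|) ≤
        ∑ i ∈ S j, (2 * (NN (G j i) t (t + B / R) : ℝ)) := by
      refine Finset.sum_le_sum fun i _ => ?_
      have := (abs_le.mp (le_refl |2 * (NN (G j i) t (t + B / R) : ℝ) - m|)).1
      linarith
    rw [Finset.sum_sub_distrib, Finset.sum_const, nsmul_eq_mul, ← Finset.mul_sum] at h1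
    linarith
  obtain ⟨E, hG⟩ : ∃ E : Finset (ι j), E = (S j).filter fun i => 0 < Ns (G j i) t (t + B / R) :=
    ⟨_, rfl⟩
  rw [← hG]
  have hGs : E ⊆ S j := by rw [hG]; exact Finset.filter_subset _ _
  have hGsum : ∑ i ∈ S j, (Ns (G j i) t (t + B / R) : ℝ) =
      ∑ i ∈ E, (Ns (G j i) t (t + B / R) : ℝ) := by
    symm
    refine Finset.sum_subset hGs fun i hi hn => ?_
    rw [hG, Finset.mem_filter, not_and, not_lt, Nat.le_zero] at hn
    rw [hn hi, Nat.cast_zero]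
  have hup : 2 * ∑ i ∈ E, (Ns (G j i) t (t + B / R) : ℝ) ≤ E.card * m + δ * m * (S j).card := by
    have h1 : 2 * ∑ i ∈ E, (Ns (G j i) t (t + B / R) : ℝ) ≤
        ∑ i ∈ E, (m + |2 * (NN (G j i) t (t + B / R) : ℝ) - m|) := by
      rw [Finset.mul_sum]
      refine Finset.sum_le_sum fun i hi => ?_
      have h2 := ns_le_nn (w1 i (hGs hi))
      have := le_abs_self (2 * (NN (G j i) t (t + B / R) : ℝ) - m)
      linarith
    refine h1.trans ?_
    rw [Finset.sum_add_distrib, Finset.sum_const, nsmul_eq_mul]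
    refine add_le_add le_rfl (le_trans ?_ w4)
    exact Finset.sum_le_sum_of_subset_of_nonneg hGs fun _ _ _ => abs_nonneg _
  rw [← hGsum] at hup
  have h3 := mul_le_mul_of_nonneg_left hNN (by linarith : 0 ≤ 2 - κ)
  have h4 : (p * (S j).card) * m ≤ E.card * m := by
    have e3 : (2 - κ) * ((1 - δ) * m * (S j).card) - δ * m * (S j).card =
        (2 - κ - δ * (3 - κ)) * (m * (S j).card) := by ring
    rw [hδ1] at e3
    have e4 : (2 - κ - (2 - κ - p)) * (m * (S j).card) = (p * (S j).card) * m := by ring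
    rw [e4] at e3
    linarith
  exact le_of_mul_le_mul_right h4 hm0

end

end Pool.Agent.T9h27.Q
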