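import Pool.Agent.T9h27.P.Fin2
import Pool.Agent.T9h27.Q.Gen
import Pool.Agent.T9h27.Q.Cst

/-!
# All primitive characters: the microscopic theorem with the constant 0.8883 (helper27)
-/

set_option autoImplicit false

open Complex Filter Topology MeasureTheory
open scoped ComplexConjugate

namespace Pool.Agent.T9h27.Q

open Pool.Agent.T9h27.Y
open Pool.Agent.T9h27.P
open Pool.Agent.T9h27.Z (GoodW NCs consts2)
open Pool.Agent.T9h27.D (NS)
open Pool.Agent.T9h27.W (TwData GM)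
open Pool.Agent.T9h27.A (Nm ns_Nm ch ch_le twc LA_euler)
open H385 (Rw primFamM primSetM mem_primSetM primFamM_eq IX)
open H370 (zset NN Ns Nd mult)

section

variable {m : ℕ} [NeZero m]

lemma selE_one (ψ : DirichletCharacter ℂ m) : W388.SelE (fun n : ℕ =>
      (ψ (n : ZMod m) + ψ (n : ZMod m)) / (Real.sqrt 4 : ℂ)) := by
  classical
  have h4 : Real.sqrt 4 = 2 := by
    rw [show (4 : ℝ) = 2 ^ 2 from by norm_num]
    exact Real.sqrt_sq (by norm_num)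
  have e : ∀ n : ℕ, (ψ (n : ZMod m) + ψ (n : ZMod m)) / (Real.sqrt 4 : ℂ) =
      ψ (n : ZMod m) / (Real.sqrt 1 : ℂ) := by
    intro n
    rw [h4, Real.sqrt_one]
    push_cast
    ring
  simp only [e]
  refine selE_of (fun n : ℕ => ψ (n : ZMod m)) (fun _ : Fin 1 => m)
    (fun _ => (1 : DirichletCharacter ℂ m)) (fun n => ?_) 1 (by norm_num) ?_
  · rw [Finset.sum_const, Finset.card_univ, Fintype.card_fin, one_smul, one_val ψ]
    rw [Complex.mul_conj, Complex.normSq_eq_norm_sq]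
  · simp

open Classical in
/-- **all heights and all windows for the twists of a Dirichlet character** -/
theorem micro_one {ψ : DirichletCharacter ℂ m} (hψ : ψ.IsPrimitive) :
    ∃ κ : ℝ, 2 ≤ κ ∧
      (∀ X Y : ℕ, 1 ≤ X → κ * X ≤ Y → 1 ≤ primFamM (m * m) X Y (fun _ _ => 1)) ∧
      (∀ δ : ℝ, 0 < δ → ∃ B η X₀ : ℝ, 0 < B ∧ 0 < η ∧ 1 ≤ X₀ ∧ ∀ X Y : ℕ, X₀ ≤ (X : ℝ) →
        κ * (X : ℝ) ≤ (Y : ℝ) → ∀ t H : ℝ, |t| ≤ (X : ℝ) ^ η → B ≤ H * Real.log X →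
        H ≤ (X : ℝ) ^ η →
        (∀ (q : ℕ) (χ : DirichletCharacter ℂ q), X < q → Nat.Coprime q (m * m) →
          χ.IsPrimitive → (zset (Lf (tm χ ψ)) t (t + H)).Finite) ∧
        primFamM (m * m) X Y (fun q χ => |2 * (NN (Lf (tm χ ψ)) t (t + H) : ℝ) -
            2 * H / (2 * Real.pi) * Real.log q|) ≤
          δ * primFamM (m * m) X Y (fun q _ => 2 * H / (2 * Real.pi) * Real.log q) ∧
        0.8883 * primFamM (m * m) X Y (fun q χ => (NN (Lf (tm χ ψ)) t (t + H) : ℝ)) ≤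
          primFamM (m * m) X Y (fun q χ => (Ns (Lf (tm χ ψ)) t (t + H) : ℝ)) ∧
        0.94415 * primFamM (m * m) X Y (fun q χ => (NN (Lf (tm χ ψ)) t (t + H) : ℝ)) ≤
          primFamM (m * m) X Y (fun q χ => (Nd (Lf (tm χ ψ)) t (t + H) : ℝ))) ∧
      (∃ B η X₀ : ℝ, 0 < B ∧ 0 < η ∧ 1 ≤ X₀ ∧ ∀ X Y : ℕ, X₀ ≤ (X : ℝ) →
        κ * (X : ℝ) ≤ (Y : ℝ) → ∀ t H : ℝ, |t| ≤ (X : ℝ) ^ η → B ≤ H * Real.log X →
        0.8883 * primFamM (m * m) X Y (fun _ _ => 1) ≤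
          primFamM (m * m) X Y (fun q χ => if (∃ s ∈ zset (Lf (tm χ ψ)) t (t + H),
            s.re = 1 / 2 ∧ mult (Lf (tm χ ψ)) s = 1) then 1 else 0)) := by
  have hPD := pd_pair hψ hψ
  obtain ⟨A, hD⟩ := twdata_prod hPD
  obtain ⟨A', hA', hgood⟩ := good_prod hPD
  have hcard : Fintype.card (Unit ⊕ Unit) = 2 := by simp
  rw [hcard] at hD hgood
  obtain ⟨γ, l, D, h1, h2, h3, h4, h5, h6⟩ := consts44
  have hmem : ∀ (q : ℕ) (χ : DirichletCharacter ℂ q), 2 ≤ q → Nat.Coprime q (m * m) →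
      χ.IsPrimitive → Differentiable ℂ (Lf (tm χ ψ)) ∧ ∃ s, Lf (tm χ ψ) s ≠ 0 := by
    intro q χ h2 hq hχ
    have : NeZero q := ⟨by omega⟩
    have : NeZero (q * m) := ⟨mul_ne_zero (NeZero.ne q) (NeZero.ne m)⟩
    have n1 : tm χ ψ ≠ 1 := tm_ne_one h2 hχ hψ (Nat.Coprime.coprime_dvd_right (dvd_mul_right _ _) hq)
    rw [Lf_eq]
    exact ⟨DirichletCharacter.differentiable_LFunction n1, 2,
      DirichletCharacter.LFunction_ne_zero_of_one_le_re _ (Or.inl n1) (by norm_num)⟩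
  obtain ⟨κ, P, D', hκ, hms, hfd⟩ := fd_tw (ns_Nm (Unit ⊕ Unit)) hD hPD.hM le_rfl (by norm_num)
    hA' (by norm_num : (0 : ℝ) ≤ 2) (c₀ := fun n : ℕ => ψ (n : ZMod m) + ψ (n : ZMod m))
    (fun n => by
      refine (norm_add_le _ _).trans ?_
      have := ψ.norm_le_one (n : ZMod m)
      linarith) hgood
    (g := 2 / 5) (cf := 9 / 10) (l₂ := (l + 1) / 2) (D := D) (by linarith)
    (by push_cast; linarith) h5 (by norm_num) (by norm_num) (by linarith) (by norm_num)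
    (by push_cast; norm_num)
  obtain ⟨H1, H2⟩ := micro_sq (F := fun i => FF ψ ψ i.1 i.2) (G := fun i => Lf (tm i.2 ψ))
    (ϖ := 0.8883) (by norm_num) le_rfl (selE_one ψ) (by norm_num) h1 h2 h3
    (l₂ := (l + 1) / 2) (g := 2 / 5) (by linarith) (by linarith) (by linarith) (by linarith)
    (by norm_num at h6 ⊢; linarith) hκ
    (fun q χ _ _ _ z => by
      change Lf (tm χ ψ) z * Lf (tm χ ψ) z = 0 ↔ _
      rw [mul_self_eq_zero])
    (fun q χ a b c z => by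
      obtain ⟨d1, d2⟩ := hmem q χ a b c
      have := mult_mul d1 d1 d2 d2 z
      change mult (fun s => Lf (tm χ ψ) s * Lf (tm χ ψ) s) z = _
      rw [this, two_mul])
    hms (FD.scale (by norm_num : (0 : ℝ) < 4) hfd)
  have e1 : (1 + (0.8883 : ℝ)) / 2 = 0.94415 := by norm_num
  simp only [e1, Nat.cast_ofNat] at H1
  exact ⟨κ, hκ, hms, H1, H2⟩

end

end Pool.Agent.T9h27.Q
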